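import Pool.Agent.Helper7.BM.Goals

/-!
# Project BM (MP_57df85_nt), packet STEP: the extrapolation step
-/

set_option autoImplicit false

open Finset Filter Topology
open scoped ContDiff

namespace Pool.Agent.Helper41.BM

open Pool.Agent.Helper7.BM

theorem itd {ι : Type} [Fintype ι] (C θ : ι → ℝ) (j : ℕ) :
    iteratedDeriv j (fun x : ℝ => ∑ i, C i * Real.exp (θ i * x)) =
      fun x : ℝ => ∑ i, C i * θ i ^ j * Real.exp (θ i * x) := by
  induction j with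
  | zero => simp
  | succ j ih =>
    rw [iteratedDeriv_succ, ih]
    funext x
    have h : HasDerivAt (fun x : ℝ => ∑ i, C i * θ i ^ j * Real.exp (θ i * x))
        (∑ i, C i * θ i ^ (j + 1) * Real.exp (θ i * x)) x := by
      refine HasDerivAt.fun_sum fun i _ => ?_
      have h1 : HasDerivAt (fun x : ℝ => θ i * x) (θ i) x := by
        simpa using (hasDerivAt_id x).const_mul (θ i)
      have h2 := (h1.exp).const_mul (C i * θ i ^ j)
      refine h2.congr_deriv ?_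
      ring
    exact h.deriv

theorem smooth {ι : Type} [Fintype ι] (C θ : ι → ℝ) :
    ContDiff ℝ ∞ (fun x : ℝ => ∑ i, C i * Real.exp (θ i * x)) := by
  fun_prop

theorem exp_approx {a t ε B : ℝ} (ha : 0 < a) (l : ℕ) (h : |Real.log a - t| ≤ ε)
    (hB : |Real.log a| ≤ B) (hl : (l : ℝ) * ε ≤ 1) :
    |Real.exp (t * l) - a ^ l| ≤ Real.exp (B * l) * (2 * l * ε) := by
  have hl0 : (0 : ℝ) ≤ l := Nat.cast_nonneg l
  have h1 : a ^ l = Real.exp (Real.log a * l) := by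
    rw [Real.exp_mul, Real.exp_log ha, Real.rpow_natCast]
  have h2 : Real.exp (t * l) - a ^ l
      = Real.exp (Real.log a * l) * (Real.exp ((t - Real.log a) * l) - 1) := by
    rw [h1, mul_sub, ← Real.exp_add, mul_one]
    congr 2
    ring
  have h3 : |(t - Real.log a) * l| ≤ ε * l := by
    rw [abs_mul, abs_of_nonneg hl0, abs_sub_comm]
    exact mul_le_mul_of_nonneg_right h hl0
  have h4 := Real.abs_exp_sub_one_le (x := (t - Real.log a) * l) (by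
    refine h3.trans ?_
    rw [mul_comm]
    exact hl)
  rw [h2, abs_mul, abs_of_pos (Real.exp_pos _)]
  refine mul_le_mul ?_ ?_ (abs_nonneg _) (Real.exp_pos _).le
  · exact Real.exp_le_exp.2 (mul_le_mul_of_nonneg_right ((le_abs_self _).trans hB) hl0)
  · refine h4.trans ?_
    nlinarith

theorem sum_bound {ι : Type} [Fintype ι] (C e : ι → ℝ) {N : ℕ} {b d : ℝ}
    (hN : Fintype.card ι ≤ N) (hC : ∀ i, |C i| ≤ b) (he : ∀ i, |e i| ≤ d) (hb : 0 ≤ b)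
    (hd : 0 ≤ d) : |∑ i, C i * e i| ≤ N * (b * d) := by
  calc |∑ i, C i * e i| ≤ ∑ i, |C i * e i| := Finset.abs_sum_le_sum_abs _ _
    _ ≤ ∑ _i : ι, b * d := by
        refine Finset.sum_le_sum fun i _ => ?_
        rw [abs_mul]
        exact mul_le_mul (hC i) (he i) (abs_nonneg _) hb
    _ = (Fintype.card ι : ℝ) * (b * d) := by
        rw [Finset.sum_const, nsmul_eq_mul, Finset.card_univ]
    _ ≤ N * (b * d) := by
        refine mul_le_mul_of_nonneg_right ?_ (mul_nonneg hb hd)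
        exact_mod_cast hN

theorem binom_zero {ι : Type} [Fintype ι] (c g1 g2 : ι → ℤ) (A : ι → ℝ) (w1 w2 : ℝ)
    (T m1 m2 l j : ℕ) (hyp : ∀ a b : ℕ, a + b < 2 * T →
      ∑ i, (c i : ℝ) * (g1 i : ℝ) ^ a * (g2 i : ℝ) ^ b * A i ^ l = 0) (hm : m1 + m2 < T)
    (hj : j < T) :
    ∑ i, ((c i : ℝ) * (g1 i : ℝ) ^ m1 * (g2 i : ℝ) ^ m2) *
      (w1 * (g1 i : ℝ) + w2 * (g2 i : ℝ)) ^ j * A i ^ l = 0 := by
  have h1 : ∀ i, ((c i : ℝ) * (g1 i : ℝ) ^ m1 * (g2 i : ℝ) ^ m2) *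
      (w1 * (g1 i : ℝ) + w2 * (g2 i : ℝ)) ^ j * A i ^ l =
      ∑ r ∈ range (j + 1), (w1 ^ r * w2 ^ (j - r) * (j.choose r : ℝ)) *
        ((c i : ℝ) * (g1 i : ℝ) ^ (m1 + r) * (g2 i : ℝ) ^ (m2 + (j - r)) * A i ^ l) := by
    intro i
    rw [add_pow, Finset.mul_sum, Finset.sum_mul]
    refine Finset.sum_congr rfl fun r _ => ?_
    rw [mul_pow, mul_pow, pow_add, pow_add]
    ring
  rw [Finset.sum_congr rfl fun i _ => h1 i, Finset.sum_comm]
  refine Finset.sum_eq_zero fun r hr => ?_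
  rw [← Finset.mul_sum, hyp _ _ (by
    have := Finset.mem_range.1 hr
    omega), mul_zero]

theorem step (h1 : StmtHL) (h2 : StmtNUM) : StmtSTEP := by
  intro ι _ M s T D c g1 g2 A w1 w2 hM hs hT1 hT2 hcard hc hg hA hlog hD hlogD hint hlin hyp
    m1 m2 l hm hl1 hl2
  obtain ⟨n1, n2, n3, n4⟩ := h2 M s T hM hs hT1 hT2
  have hMr : (2 : ℝ) ^ 50 ≤ (M : ℝ) := by exact_mod_cast hM
  have hM1 : (1 : ℝ) ≤ (M : ℝ) := le_trans (by norm_num) hMr
  have hM0 : (0 : ℝ) ≤ (M : ℝ) := by linarith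
  have hM1n : 1 ≤ M := le_trans (by norm_num) hM
  have hT0 : 1 ≤ T := le_trans (by
    have : 1 ≤ M ^ 16 := Nat.one_le_pow _ _ hM1n
    omega) hT1
  have hTr : (T : ℝ) ≤ (M : ℝ) ^ 17 := by
    have : T ≤ M ^ 17 := by omega
    exact_mod_cast this
  set ε : ℝ := Real.exp (-(M : ℝ) ^ 115) with hε
  have hε0 : 0 < ε := Real.exp_pos _
  have hε1 : ε ≤ 1 := by
    rw [hε]
    exact Real.exp_le_one_iff.2 (by
      have : (0 : ℝ) ≤ (M : ℝ) ^ 115 := by positivity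
      linarith)
  -- coefficients
  set C : ι → ℝ := fun i => (c i : ℝ) * (g1 i : ℝ) ^ m1 * (g2 i : ℝ) ^ m2 with hCdef
  set θ : ι → ℝ := fun i => w1 * (g1 i : ℝ) + w2 * (g2 i : ℝ) with hθdef
  have hC : ∀ i, |C i| ≤ Real.exp (5 * (M : ℝ) ^ 18) := by
    intro i
    have e1 : |(g1 i : ℝ)| ^ m1 ≤ Real.exp (M * m1) := by
      rw [Real.exp_mul, Real.rpow_natCast]
      exact pow_le_pow_left₀ (abs_nonneg _) (hg i).1 _
    have e2 : |(g2 i : ℝ)| ^ m2 ≤ Real.exp (M * m2) := by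
      rw [Real.exp_mul, Real.rpow_natCast]
      exact pow_le_pow_left₀ (abs_nonneg _) (hg i).2 _
    have e3 : |C i| = |(c i : ℝ)| * |(g1 i : ℝ)| ^ m1 * |(g2 i : ℝ)| ^ m2 := by
      rw [hCdef]
      simp only [abs_mul, abs_pow]
    rw [e3]
    calc |(c i : ℝ)| * |(g1 i : ℝ)| ^ m1 * |(g2 i : ℝ)| ^ m2
        ≤ Real.exp (4 * (M : ℝ) ^ 18) * Real.exp (M * m1) * Real.exp (M * m2) := by
          have := hc i
          gcongr
      _ = Real.exp (4 * (M : ℝ) ^ 18 + M * m1 + M * m2) := by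
          rw [← Real.exp_add, ← Real.exp_add]
      _ ≤ Real.exp (5 * (M : ℝ) ^ 18) := by
          apply Real.exp_le_exp.2
          have e4 : ((m1 : ℝ) + m2) ≤ T := by
            have : m1 + m2 ≤ T := by omega
            exact_mod_cast this
          have e5 : (M : ℝ) * (m1 + m2) ≤ M * (M : ℝ) ^ 17 :=
            mul_le_mul_of_nonneg_left (e4.trans hTr) hM0
          have e6 : (M : ℝ) * (M : ℝ) ^ 17 = (M : ℝ) ^ 18 := by ring
          nlinarith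
  have h14 : (1 : ℝ) ≤ (M : ℝ) ^ 14 := one_le_pow₀ hM1
  have hθ : ∀ i, |θ i| ≤ 2 * (M : ℝ) ^ 14 := by
    intro i
    have e1 : |θ i| ≤ |Real.log (A i)| + |Real.log (A i) - θ i| := by
      have : θ i = Real.log (A i) - (Real.log (A i) - θ i) := by ring
      calc |θ i| = |Real.log (A i) - (Real.log (A i) - θ i)| := by rw [← this]
        _ ≤ _ := abs_sub _ _
    have e2 := hlog i
    have e3 : |Real.log (A i) - θ i| ≤ ε := hlin i
    linarith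
  set f : ℝ → ℝ := fun x => ∑ i, C i * Real.exp (θ i * x) with hf
  have hfj : ∀ j x, iteratedDeriv j f x = ∑ i, C i * θ i ^ j * Real.exp (θ i * x) := by
    intro j x
    rw [hf, itd]
  have hsm : ContDiff ℝ ∞ f := smooth C θ
  have hRcast : ((M ^ (4 + s) : ℕ) : ℝ) = (M : ℝ) ^ (4 + s) := by push_cast; rfl
  have hScast : ((M ^ (3 + s) : ℕ) : ℝ) = (M : ℝ) ^ (3 + s) := by push_cast; rfl
  -- l ε ≤ 1
  have hle1 : ∀ r : ℕ, r ≤ M ^ (4 + s) → (r : ℝ) * ε ≤ 1 := by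
    intro r hr
    have e1 : (r : ℝ) ≤ (M : ℝ) ^ (4 + s) := by
      rw [← hRcast]
      exact_mod_cast hr
    have e2 : (M : ℝ) ^ (4 + s) ≤ (M : ℝ) ^ 115 := pow_le_pow_right₀ hM1 (by omega)
    have e3 : (M : ℝ) ^ 115 ≤ Real.exp ((M : ℝ) ^ 115) :=
      le_trans (by linarith) (Real.add_one_le_exp _)
    have e4 : ε = (Real.exp ((M : ℝ) ^ 115))⁻¹ := by rw [hε, Real.exp_neg]
    rw [e4, ← div_eq_mul_inv, div_le_one (Real.exp_pos _)]
    linarith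
  have happ : ∀ (r Q : ℕ), r ≤ Q → Q ≤ M ^ (4 + s) → ∀ i, |Real.exp (θ i * r) - A i ^ r| ≤
      Real.exp ((M : ℝ) ^ 14 * Q) * (2 * Q * ε) := by
    intro r Q hrQ hQ i
    refine (exp_approx (hA i) r (hlin i) (hlog i) (hle1 r (hrQ.trans hQ))).trans ?_
    have e1 : (r : ℝ) ≤ Q := by exact_mod_cast hrQ
    gcongr
  have hSR : M ^ (3 + s) ≤ M ^ (4 + s) := Nat.pow_le_pow_right hM1n (by omega)
  have hcardM : ((M ^ 39 : ℕ) : ℝ) = (M : ℝ) ^ 39 := by push_cast; rfl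
  -- the derivatives at the points
  have hb : ∀ r ∈ Icc 1 (M ^ (3 + s)), ∀ j < T, |iteratedDeriv j f (r : ℝ)| ≤
      Real.exp ((M : ℝ) ^ 53 - (M : ℝ) ^ 115) := by
    intro r hr j hj
    obtain ⟨hr1, hr2⟩ := Finset.mem_Icc.1 hr
    have e0 := binom_zero c g1 g2 A w1 w2 T m1 m2 r j (fun a b hab => hyp a b r hab hr1 hr2)
      hm hj
    have e1 : iteratedDeriv j f r = ∑ i, C i * (θ i ^ j * (Real.exp (θ i * r) - A i ^ r)) := by
      rw [hfj]
      have : ∑ i, C i * θ i ^ j * A i ^ r = 0 := e0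
      rw [← sub_zero (∑ i, C i * θ i ^ j * Real.exp (θ i * r)), ← this,
        ← Finset.sum_sub_distrib]
      refine Finset.sum_congr rfl fun i _ => ?_
      ring
    rw [e1]
    have e2 : ∀ i, |θ i ^ j * (Real.exp (θ i * r) - A i ^ r)| ≤ (2 * (M : ℝ) ^ 14) ^ T *
        (Real.exp ((M : ℝ) ^ 14 * (M : ℝ) ^ (3 + s)) * (2 * (M : ℝ) ^ (3 + s) * ε)) := by
      intro i
      rw [abs_mul, abs_pow]
      have e3 := happ r (M ^ (3 + s)) hr2 hSR i
      rw [hScast] at e3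
      have e4 : |θ i| ^ j ≤ (2 * (M : ℝ) ^ 14) ^ T :=
        (pow_le_pow_left₀ (abs_nonneg _) (hθ i) j).trans
          (pow_le_pow_right₀ (by linarith) hj.le)
      exact mul_le_mul e4 e3 (abs_nonneg _) (by positivity)
    have e5 := sum_bound C (fun i => θ i ^ j * (Real.exp (θ i * r) - A i ^ r)) hcard hC e2
      (Real.exp_pos _).le (by positivity)
    refine e5.trans (le_trans (le_of_eq ?_) n1)
    rw [hcardM]
    ring
  -- the derivative of high order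
  set B : ℝ := (M : ℝ) ^ 39 * Real.exp (5 * (M : ℝ) ^ 18) *
    (2 * (M : ℝ) ^ 14) ^ (T * M ^ (3 + s)) * Real.exp (2 * (M : ℝ) ^ 14 * (M : ℝ) ^ (4 + s))
    with hB
  have hcB : ∀ x ∈ Set.Icc (0 : ℝ) ((M ^ (4 + s) : ℕ) : ℝ),
      |iteratedDeriv (T * M ^ (3 + s)) f x| ≤ B := by
    intro x hx
    rw [hRcast] at hx
    rw [hfj]
    have e1 : ∑ i, C i * θ i ^ (T * M ^ (3 + s)) * Real.exp (θ i * x) =
        ∑ i, C i * (θ i ^ (T * M ^ (3 + s)) * Real.exp (θ i * x)) :=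
      Finset.sum_congr rfl fun i _ => by ring
    rw [e1]
    have e2 : ∀ i, |θ i ^ (T * M ^ (3 + s)) * Real.exp (θ i * x)| ≤
        (2 * (M : ℝ) ^ 14) ^ (T * M ^ (3 + s)) *
          Real.exp (2 * (M : ℝ) ^ 14 * (M : ℝ) ^ (4 + s)) := by
      intro i
      rw [abs_mul, abs_pow, abs_of_pos (Real.exp_pos (θ i * x))]
      refine mul_le_mul (pow_le_pow_left₀ (abs_nonneg _) (hθ i) _) (Real.exp_le_exp.2 ?_)
        (Real.exp_pos _).le (by positivity)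
      calc θ i * x ≤ |θ i| * x := mul_le_mul_of_nonneg_right (le_abs_self _) hx.1
        _ ≤ 2 * (M : ℝ) ^ 14 * (M : ℝ) ^ (4 + s) :=
          mul_le_mul (hθ i) hx.2 hx.1 (by positivity)
    have e3 := sum_bound C (fun i => θ i ^ (T * M ^ (3 + s)) * Real.exp (θ i * x)) hcard hC e2
      (Real.exp_pos _).le (by positivity)
    refine e3.trans (le_of_eq ?_)
    rw [hcardM, hB]
    ring
  -- interpolation
  have hlR : (l : ℝ) ≤ (M : ℝ) ^ (4 + s) := by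
    rw [← hRcast]
    exact_mod_cast hl2
  have hfl := h1 f (M ^ (3 + s)) T (M ^ (4 + s)) (Real.exp ((M : ℝ) ^ 53 - (M : ℝ) ^ 115)) B hsm
    (Nat.one_le_pow _ _ hM1n) hT0 hSR (Real.exp_pos _).le hb hcB l
    ⟨Nat.cast_nonneg l, by rw [hRcast]; exact hlR⟩
  rw [hRcast] at hfl
  -- the integer
  set G : ℝ := ∑ i, C i * A i ^ l with hG
  have hGf : |G| ≤ |f l| + (M : ℝ) ^ 39 * Real.exp (5 * (M : ℝ) ^ 18) *
      (Real.exp ((M : ℝ) ^ 14 * (M : ℝ) ^ (4 + s)) * (2 * (M : ℝ) ^ (4 + s) * ε)) := by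
    have e1 : G = f l - ∑ i, C i * (Real.exp (θ i * l) - A i ^ l) := by
      rw [hG, hf]
      simp only
      rw [← Finset.sum_sub_distrib]
      refine Finset.sum_congr rfl fun i _ => ?_
      ring
    have e2 : ∀ i, |Real.exp (θ i * l) - A i ^ l| ≤
        Real.exp ((M : ℝ) ^ 14 * (M : ℝ) ^ (4 + s)) * (2 * (M : ℝ) ^ (4 + s) * ε) := by
      intro i
      have e3 := happ l (M ^ (4 + s)) hl2 le_rfl i
      rw [hRcast] at e3
      exact e3
    have e3 := sum_bound C (fun i => Real.exp (θ i * l) - A i ^ l) hcard hC e2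
      (Real.exp_pos _).le (by positivity)
    rw [hcardM] at e3
    rw [e1]
    refine (abs_sub _ _).trans ?_
    have e4 : (M : ℝ) ^ 39 * (Real.exp (5 * (M : ℝ) ^ 18) *
        (Real.exp ((M : ℝ) ^ 14 * (M : ℝ) ^ (4 + s)) * (2 * (M : ℝ) ^ (4 + s) * ε))) =
        (M : ℝ) ^ 39 * Real.exp (5 * (M : ℝ) ^ 18) *
      (Real.exp ((M : ℝ) ^ 14 * (M : ℝ) ^ (4 + s)) * (2 * (M : ℝ) ^ (4 + s) * ε)) := by ring
    linarith
  have hDl : (D : ℝ) ^ l ≤ Real.exp ((M : ℝ) ^ 14 * (M : ℝ) ^ (4 + s)) := by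
    have hD0 : (0 : ℝ) < D := by exact_mod_cast hD
    have e1 : (D : ℝ) ^ l = Real.exp (Real.log D * l) := by
      rw [Real.exp_mul, Real.exp_log hD0, Real.rpow_natCast]
    rw [e1]
    apply Real.exp_le_exp.2
    have e2 : 0 ≤ Real.log (D : ℝ) := Real.log_natCast_nonneg D
    exact mul_le_mul hlogD hlR (Nat.cast_nonneg l) (by positivity)
  have hD0 : (0 : ℝ) < (D : ℝ) ^ l := by
    have : (0 : ℝ) < D := by exact_mod_cast hD
    positivity
  choose kk hkk using hint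
  have hz : (D : ℝ) ^ l * G = ((∑ i, c i * g1 i ^ m1 * g2 i ^ m2 * kk i ^ l : ℤ) : ℝ) := by
    rw [hG, Finset.mul_sum]
    push_cast
    refine Finset.sum_congr rfl fun i _ => ?_
    rw [← hkk i, hCdef, mul_pow]
    ring
  set z : ℤ := ∑ i, c i * g1 i ^ m1 * g2 i ^ m2 * kk i ^ l with hzdef
  have habs : |((z : ℤ) : ℝ)| < 1 := by
    rw [← hz, abs_mul, abs_of_pos hD0]
    have e1 : (D : ℝ) ^ l * |G| ≤ Real.exp ((M : ℝ) ^ 14 * (M : ℝ) ^ (4 + s)) * |G| :=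
      mul_le_mul_of_nonneg_right hDl (abs_nonneg _)
    have e2 : Real.exp ((M : ℝ) ^ 14 * (M : ℝ) ^ (4 + s)) * |G| ≤
        Real.exp ((M : ℝ) ^ 14 * (M : ℝ) ^ (4 + s)) *
        ((B * ((M : ℝ) ^ (4 + s)) ^ (T * M ^ (3 + s)) / ((T * M ^ (3 + s)).factorial : ℝ) +
          Real.exp ((M : ℝ) ^ 53 - (M : ℝ) ^ 115) *
            (((T * M ^ (3 + s) : ℕ) : ℝ) * (M : ℝ) ^ (4 + s)) ^ (3 * (T * M ^ (3 + s)) ^ 2)) +
          (M : ℝ) ^ 39 * Real.exp (5 * (M : ℝ) ^ 18) *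
      (Real.exp ((M : ℝ) ^ 14 * (M : ℝ) ^ (4 + s)) * (2 * (M : ℝ) ^ (4 + s) * ε))) :=
      mul_le_mul_of_nonneg_left (hGf.trans (add_le_add hfl le_rfl)) (Real.exp_pos _).le
    have e3 := mul_add (Real.exp ((M : ℝ) ^ 14 * (M : ℝ) ^ (4 + s)))
      (B * ((M : ℝ) ^ (4 + s)) ^ (T * M ^ (3 + s)) / ((T * M ^ (3 + s)).factorial : ℝ) +
          Real.exp ((M : ℝ) ^ 53 - (M : ℝ) ^ 115) *
            (((T * M ^ (3 + s) : ℕ) : ℝ) * (M : ℝ) ^ (4 + s)) ^ (3 * (T * M ^ (3 + s)) ^ 2))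
      ((M : ℝ) ^ 39 * Real.exp (5 * (M : ℝ) ^ 18) *
      (Real.exp ((M : ℝ) ^ 14 * (M : ℝ) ^ (4 + s)) * (2 * (M : ℝ) ^ (4 + s) * ε)))
    have e4 := mul_add (Real.exp ((M : ℝ) ^ 14 * (M : ℝ) ^ (4 + s)))
      (B * ((M : ℝ) ^ (4 + s)) ^ (T * M ^ (3 + s)) / ((T * M ^ (3 + s)).factorial : ℝ))
      (Real.exp ((M : ℝ) ^ 53 - (M : ℝ) ^ 115) *
            (((T * M ^ (3 + s) : ℕ) : ℝ) * (M : ℝ) ^ (4 + s)) ^ (3 * (T * M ^ (3 + s)) ^ 2))
    rw [e3, e4] at e2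
    linarith
  have hz0 : z = 0 := by
    have : |z| < 1 := by exact_mod_cast habs
    exact Int.abs_lt_one_iff.1 this
  have hfin : (D : ℝ) ^ l * G = 0 := by rw [hz, hz0, Int.cast_zero]
  exact (mul_eq_zero.1 hfin).resolve_left hD0.ne'

end Pool.Agent.Helper41.BM
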